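import Mathlib

/-!
# Doubling the ones in optimal integer-complexity expressions (MP_d302e1_nt)

The number `47` has integer complexity `13`, and for every most efficient representation `R` of
`47` by ones (reduced or not) the number `a(47, R)` obtained by replacing every `1` by `2` is
`364` or `652`.  Both have a shorter expression by twos (sizes `11` and `12`).  So the conjectured
equality `‖a(n, R)‖₂ = ‖n‖₁` fails for `n = 47` whichever most efficient representation is used.
-/

namespace Pool.Agent.Results.MP_d302e1_nt.DoublingFails

/-- Formulas built from copies of one constant by binary `+` and `×`. -/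
inductive Expr : Type
  | one : Expr
  | add : Expr → Expr → Expr
  | mul : Expr → Expr → Expr

/-- The value of a formula, the constant being read as `l` (an `l`-expression). -/
def Expr.eval (l : ℕ) : Expr → ℕ
  | .one => l
  | .add x y => x.eval l + y.eval l
  | .mul x y => x.eval l * y.eval l

/-- The number of copies of the constant used in a formula. -/
def Expr.size : Expr → ℕ
  | .one => 1
  | .add x y => x.size + y.size
  | .mul x y => x.size + y.size

/-- The `l`-complexity `‖n‖_l`: the least size of an `l`-expression with value `n`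
(used only for `n ∈ l ℤ⁺`, where such expressions exist). -/
noncomputable def cplx (l n : ℕ) : ℕ :=
  sInf {k | ∃ e : Expr, e.eval l = n ∧ e.size = k}

/-- The number of literal constants among the summands of a formula, `+` being read as an
associative operation (a formula that is a product counts as one summand that is no literal). -/
def Expr.literals : Expr → ℕ
  | .one => 1
  | .add x y => x.literals + y.literals
  | .mul _ _ => 0

/-- A formula is reduced if no sum occurring in it (`+` read as associative) has four or more
summands that are the literal constant. -/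
def Expr.Reduced : Expr → Prop
  | .one => True
  | .add x y => x.literals + y.literals < 4 ∧ x.Reduced ∧ y.Reduced
  | .mul x y => x.Reduced ∧ y.Reduced

/-- `R` is a most efficient representation of `n`: a `1`-expression with value `n` and
size `‖n‖₁`. -/
def IsMostEfficient (n : ℕ) (R : Expr) : Prop :=
  R.eval 1 = n ∧ R.size = cplx 1 n

/-- The integer complexities of `0, …, 47` (with `0` at `0`). -/
def tab (n : ℕ) : ℕ :=
  [0, 1, 2, 3, 4, 5, 5, 6, 6, 6, 7, 8, 7, 8, 8, 8, 8, 9, 8, 9, 9, 9, 10, 11, 9, 10, 10, 9, 10, 11,
    10, 11, 10, 11, 11, 11, 10, 11, 11, 11, 11, 12, 11, 12, 12, 11, 12, 13].getD n 0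

/-- The values `a(n, R)`, for `R` a most efficient representation of `n ≤ 47`. -/
def vals (n : ℕ) : List ℕ :=
  [[], [2], [4], [6], [8, 16], [10, 18], [24], [26], [32, 64], [36], [38, 40, 72], [40, 42, 74],
    [48, 96], [50, 98], [104], [60, 108], [64, 128, 256], [66, 130, 258], [144], [146],
    [80, 144, 152, 160, 288], [156], [158, 160, 168, 296], [160, 162, 170, 298], [192, 384],
    [100, 180, 194, 324, 386], [200, 392], [216], [208, 218, 416], [210, 220, 418],
    [228, 240, 432], [230, 242, 434], [256, 512, 1024], [240, 252, 258, 444, 514, 1026],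
    [264, 520, 1032], [260, 468], [288, 576], [290, 578], [584], [300, 588],
    [304, 320, 576, 608, 640, 1152], [306, 322, 578, 610, 642, 1154], [624], [626],
    [320, 336, 592, 632, 640, 672, 1184], [360, 648], [362, 650], [364, 652]].getD n []

theorem eval_pos (e : Expr) : 0 < e.eval 1 := by
  induction e with
  | one => decide
  | add x y hx hy => exact Nat.add_pos_left hx _
  | mul x y hx hy => exact Nat.mul_pos hx hy

theorem tab_add : ∀ n < 48, ∀ x < n, 0 < x → tab n ≤ tab x + tab (n - x) := by
  decide +kernel

theorem tab_mul : ∀ x < 48, ∀ y < 48, x * y < 48 → 0 < x → 0 < y →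
    tab (x * y) ≤ tab x + tab y := by
  decide +kernel

theorem vals_add : ∀ n < 48, ∀ x < n, 0 < x → tab n = tab x + tab (n - x) →
    ∀ u ∈ vals x, ∀ v ∈ vals (n - x), u + v ∈ vals n := by
  decide +kernel

theorem vals_mul_aux : ∀ x < 48, ∀ y < 48, (x * y < 48 ∧ 0 < x ∧ 0 < y ∧
    tab (x * y) = tab x + tab y) → ∀ u ∈ vals x, ∀ v ∈ vals y, u * v ∈ vals (x * y) := by
  decide +kernel

theorem vals_mul (x : ℕ) (hx : x < 48) (y : ℕ) (hy : y < 48) (h : x * y < 48) (px : 0 < x)
    (py : 0 < y) (ht : tab (x * y) = tab x + tab y) (u : ℕ) (hu : u ∈ vals x) (v : ℕ)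
    (hv : v ∈ vals y) : u * v ∈ vals (x * y) :=
  vals_mul_aux x hx y hy ⟨h, px, py, ht⟩ u hu v hv

theorem tab_add' {x y : ℕ} (h : x + y < 48) (hx : 0 < x) (hy : 0 < y) :
    tab (x + y) ≤ tab x + tab y := by
  have := tab_add (x + y) h x (by omega) hx
  simpa using this

theorem vals_add' {x y : ℕ} (h : x + y < 48) (hx : 0 < x) (hy : 0 < y)
    (he : tab (x + y) = tab x + tab y) {u v : ℕ} (hu : u ∈ vals x) (hv : v ∈ vals y) :
    u + v ∈ vals (x + y) := by
  have := vals_add (x + y) h x (by omega) hx (by simpa using he) u hu v (by simpa using hv)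
  exact this

theorem tab_le_size (e : Expr) (h : e.eval 1 < 48) : tab (e.eval 1) ≤ e.size := by
  induction e with
  | one => decide
  | add x y hx hy =>
    simp only [Expr.eval, Expr.size] at h ⊢
    have px := eval_pos x
    have py := eval_pos y
    have := tab_add' h px py
    have := hx (by omega)
    have := hy (by omega)
    omega
  | mul x y hx hy =>
    simp only [Expr.eval, Expr.size] at h ⊢
    have px := eval_pos x
    have py := eval_pos y
    have h1 : x.eval 1 ≤ x.eval 1 * y.eval 1 := Nat.le_mul_of_pos_right _ py
    have h2 : y.eval 1 ≤ x.eval 1 * y.eval 1 := Nat.le_mul_of_pos_left _ px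
    have := tab_mul _ (by omega) _ (by omega) h px py
    have := hx (by omega)
    have := hy (by omega)
    omega

theorem eval_two_mem (e : Expr) (h : e.eval 1 < 48) (hs : e.size = tab (e.eval 1)) :
    e.eval 2 ∈ vals (e.eval 1) := by
  induction e with
  | one => decide
  | add x y hx hy =>
    simp only [Expr.eval, Expr.size] at h hs ⊢
    have px := eval_pos x
    have py := eval_pos y
    have h0 := tab_add' h px py
    have hx0 := tab_le_size x (by omega)
    have hy0 := tab_le_size y (by omega)
    exact vals_add' h px py (by omega) (hx (by omega) (by omega)) (hy (by omega) (by omega))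
  | mul x y hx hy =>
    simp only [Expr.eval, Expr.size] at h hs ⊢
    have px := eval_pos x
    have py := eval_pos y
    have h1 : x.eval 1 ≤ x.eval 1 * y.eval 1 := Nat.le_mul_of_pos_right _ py
    have h2 : y.eval 1 ≤ x.eval 1 * y.eval 1 := Nat.le_mul_of_pos_left _ px
    have h0 := tab_mul _ (by omega) _ (by omega) h px py
    have hx0 := tab_le_size x (by omega)
    have hy0 := tab_le_size y (by omega)
    exact vals_mul _ (by omega) _ (by omega) h px py (by omega) _
      (hx (by omega) (by omega)) _ (hy (by omega) (by omega))

theorem cplx_le {l n k : ℕ} (e : Expr) (h : e.eval l = n) (hk : e.size ≤ k) : cplx l n ≤ k := by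
  have hm : e.size ∈ {k | ∃ e : Expr, e.eval l = n ∧ e.size = k} := ⟨e, h, rfl⟩
  exact (Nat.sInf_le hm).trans hk

/-- A most efficient representation of `47`, namely `1 + (1 + ((1+1)(1+1)+1)(1+1+1)(1+1+1))`. -/
def rep47 : Expr :=
  .add .one (.add .one (.mul (.add (.mul (.add .one .one) (.add .one .one)) .one)
    (.mul (.add .one (.add .one .one)) (.add .one (.add .one .one)))))

theorem rep47_eval : rep47.eval 1 = 47 := rfl

theorem rep47_size : rep47.size = 13 := rfl

theorem cplx_47 : cplx 1 47 = 13 := by
  apply le_antisymm (cplx_le rep47 rep47_eval (le_of_eq rep47_size))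
  have hne : {k | ∃ e : Expr, e.eval 1 = 47 ∧ e.size = k}.Nonempty :=
    ⟨13, rep47, rep47_eval, rep47_size⟩
  apply le_csInf hne
  rintro k ⟨e, he, rfl⟩
  have := tab_le_size e (by omega)
  rw [he] at this
  exact this

/-- An expression of `364` by eleven twos. -/
def e364 : Expr :=
  .mul .one (.add .one (.mul (.add .one (.mul .one (.mul .one .one)))
    (.add .one (.mul .one (.mul .one (.mul .one .one))))))

/-- An expression of `652` by twelve twos. -/
def e652 : Expr :=
  .mul .one (.add .one (.mul .one (.add .one (.mul .one (.mul .one (.mul .one (.mul .one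
    (.add .one (.mul .one (.mul .one .one))))))))))

/-- There is a number `n` (namely `47`) that has a reduced most efficient representation and such
that every most efficient representation `R` of `n`, reduced or not, satisfies
`‖a(n, R)‖₂ < ‖n‖₁`, where `a(n, R)` is the value of `R` with every `1` replaced by `2`. -/
theorem result : ∃ n : ℕ, 0 < n ∧ (∃ R : Expr, R.Reduced ∧ IsMostEfficient n R) ∧
    ∀ R : Expr, IsMostEfficient n R → cplx 2 (R.eval 2) < cplx 1 n := by
  refine ⟨47, by norm_num, ⟨rep47, ?_, rep47_eval, ?_⟩, ?_⟩
  · simp [rep47, Expr.Reduced, Expr.literals]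
  · rw [cplx_47]; rfl
  · rintro R ⟨hR, hs⟩
    rw [cplx_47] at hs ⊢
    have hmem := eval_two_mem R (by omega) (by rw [hR, hs]; rfl)
    rw [hR] at hmem
    have hv : vals 47 = [364, 652] := rfl
    rw [hv] at hmem
    simp only [List.mem_cons, List.not_mem_nil, or_false] at hmem
    rcases hmem with h | h
    · rw [h]
      exact Nat.lt_of_le_of_lt (cplx_le (k := 12) e364 rfl (by decide)) (by norm_num)
    · rw [h]
      exact Nat.lt_of_le_of_lt (cplx_le (k := 12) e652 rfl (by decide)) (by norm_num)

end Pool.Agent.Results.MP_d302e1_nt.DoublingFails
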